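import Pool.Agent.H247.CB.Stm

/-!
# QF: quadratic forms which increase under a hyperbolic matrix (helper179)

Duality: if no form increases, then `0` is in the convex hull of the compact set of the forms
`⟨A v, ·⟩² - ⟨v, ·⟩²`, `‖v‖ = 1`, and this gives a bounded full orbit.
-/

set_option autoImplicit false

open scoped Manifold ContDiff Topology InnerProductSpace
open Filter Set Metric

namespace Pool.Agent.H179.CB.QF

open Pool.Agent.H718R2.G Pool.Agent.TH80.OMS Pool.Agent.Y504.CO Pool.Agent.H247.CB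

/-- the convex hull of a compact set is compact -/
theorem compact_hull {E : Type*} [NormedAddCommGroup E] [NormedSpace ℝ E]
    [FiniteDimensional ℝ E] {s : Set E} (hs : IsCompact s) : IsCompact (convexHull ℝ s) := by
  classical
  rcases s.eq_empty_or_nonempty with rfl | ⟨x0, hx0⟩
  · rw [convexHull_empty]
    exact isCompact_empty
  obtain ⟨n, hn⟩ : ∃ n, n = Module.finrank ℝ E + 1 := ⟨_, rfl⟩
  have hK : IsCompact ((stdSimplex ℝ (Fin n)) ×ˢ (Set.pi Set.univ (fun _ : Fin n => s))) :=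
    (isCompact_stdSimplex ℝ (Fin n)).prod (isCompact_univ_pi fun _ => hs)
  have hcont : Continuous (fun p : (Fin n → ℝ) × (Fin n → E) => ∑ i, p.1 i • p.2 i) := by
    refine continuous_finsetSum _ fun i _ => ?_
    exact ((continuous_apply i).comp continuous_fst).smul ((continuous_apply i).comp continuous_snd)
  have heq : convexHull ℝ s = (fun p : (Fin n → ℝ) × (Fin n → E) => ∑ i, p.1 i • p.2 i) ''
      ((stdSimplex ℝ (Fin n)) ×ˢ (Set.pi Set.univ (fun _ : Fin n => s))) := by
    apply Set.Subset.antisymm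
    · intro x hx
      obtain ⟨ι, hι, z, w, hz, hai, hw0, hw1, hwz⟩ := eq_pos_convex_span_of_mem_convexHull hx
      have hcard : Fintype.card ι ≤ Fintype.card (Fin n) := by
        have h1 := hai.card_le_finrank_succ
        have h2 := Submodule.finrank_le (vectorSpan ℝ (Set.range z))
        rw [Fintype.card_fin, hn]
        omega
      obtain ⟨e⟩ := Function.Embedding.nonempty_of_card_le hcard
      refine ⟨(Function.extend e w 0, Function.extend e z (fun _ => x0)), ⟨⟨?_, ?_⟩, ?_⟩, ?_⟩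
      · intro j
        show (0 : ℝ) ≤ Function.extend e w 0 j
        by_cases hj : ∃ i, e i = j
        · obtain ⟨i, rfl⟩ := hj
          rw [e.injective.extend_apply]
          exact (hw0 i).le
        · rw [Function.extend_apply' _ _ _ hj]
          exact le_rfl
      · rw [← hw1]
        symm
        refine Fintype.sum_of_injective e e.injective _ _ ?_ ?_
        · intro j hj
          show Function.extend e w 0 j = 0
          rw [Function.extend_apply' _ _ _ hj]
          rfl
        · intro i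
          show w i = Function.extend e w 0 (e i)
          rw [e.injective.extend_apply]
      · intro j _
        by_cases hj : ∃ i, e i = j
        · obtain ⟨i, rfl⟩ := hj
          show Function.extend e z (fun _ => x0) (e i) ∈ s
          rw [e.injective.extend_apply]
          exact hz ⟨i, rfl⟩
        · show Function.extend e z (fun _ => x0) j ∈ s
          rw [Function.extend_apply' _ _ _ hj]
          exact hx0
      · rw [← hwz]
        symm
        refine Fintype.sum_of_injective e e.injective _ _ ?_ ?_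
        · intro j hj
          show Function.extend e w 0 j • Function.extend e z (fun _ => x0) j = 0
          rw [Function.extend_apply' w _ _ hj]
          simp
        · intro i
          show w i • z i = Function.extend e w 0 (e i) • Function.extend e z (fun _ => x0) (e i)
          rw [e.injective.extend_apply, e.injective.extend_apply]
    · rintro _ ⟨⟨w, z⟩, ⟨⟨hw0, hw1⟩, hz⟩, rfl⟩
      refine (convex_convexHull ℝ s).sum_mem (fun i _ => hw0 i) hw1 (fun i _ => ?_)
      exact subset_convexHull ℝ s (hz i (Set.mem_univ i))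
  rw [heq]
  exact hK.image hcont

section

variable {E : Type} [NormedAddCommGroup E] [InnerProductSpace ℝ E] [FiniteDimensional ℝ E]

/-- the operator `⟨v, ·⟩ w` -/
noncomputable def rk (v w : E) : E →L[ℝ] E :=
  (innerSL ℝ v).smulRight w

omit [FiniteDimensional ℝ E] in
theorem rk_apply (v w x : E) : rk v w x = ⟪v, x⟫_ℝ • w := by
  simp [rk]

omit [FiniteDimensional ℝ E] in
theorem rk_add_left (a b c : E) : rk (a + b) c = rk a c + rk b c := by
  ext x; simp only [rk_apply, inner_add_left, _root_.add_apply, add_smul]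

omit [FiniteDimensional ℝ E] in
theorem rk_smul_left (r : ℝ) (a c : E) : rk (r • a) c = r • rk a c := by
  ext x; simp only [rk_apply, real_inner_smul_left, _root_.smul_apply, smul_smul]

omit [FiniteDimensional ℝ E] in
theorem rk_add_right (a b c : E) : rk a (b + c) = rk a b + rk a c := by
  ext x; simp only [rk_apply, smul_add, _root_.add_apply]

omit [FiniteDimensional ℝ E] in
theorem rk_smul_right (r : ℝ) (a c : E) : rk a (r • c) = r • rk a c := by
  ext x; simp only [rk_apply, _root_.smul_apply, smul_smul, mul_comm]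

omit [FiniteDimensional ℝ E] in
theorem rk_cont (A : E →L[ℝ] E) :
    Continuous (fun v : E => rk (A v) (A v) - rk v v) := by
  have h0 : Continuous (fun v : E => (innerSL ℝ v : E →L[ℝ] ℝ)) := (innerSL ℝ).continuous
  have h1 : Continuous (fun p : E × E => rk p.1 p.2) :=
    (ContinuousLinearMap.smulRightL ℝ E E).continuous₂.comp
      ((h0.comp continuous_fst).prodMk continuous_snd)
  have h2 : Continuous (fun v : E => rk v v) := h1.comp (continuous_id.prodMk continuous_id)
  exact (h2.comp A.continuous).sub h2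

/-- the bilinear form given by a functional on the operators -/
noncomputable def qf (f : (E →L[ℝ] E) →L[ℝ] ℝ) : E →L[ℝ] E →L[ℝ] ℝ :=
  (LinearMap.mk₂ ℝ (fun v w => f (rk v w))
    (fun a b c => by rw [rk_add_left, map_add])
    (fun r a c => by rw [rk_smul_left, map_smul])
    (fun a b c => by rw [rk_add_right, map_add])
    (fun r a c => by rw [rk_smul_right, map_smul])).toContinuousBilinearMap

theorem qf_apply (f : (E →L[ℝ] E) →L[ℝ] ℝ) (v w : E) : qf f v w = f (rk v w) := rfl

theorem orbit_bdd (e : E ≃ₗ[ℝ] E) (ι : Type) [Fintype ι] (w : ι → ℝ) (z : ι → E)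
    (hw0 : ∀ i, 0 ≤ w i) (hw1 : ∑ i, w i = 1) (hz : ∀ i, ‖z i‖ = 1)
    (h : ∀ x : E, ∑ i, w i * ⟪e (z i), x⟫_ℝ ^ 2 = ∑ i, w i * ⟪z i, x⟫_ℝ ^ 2) :
    ∃ v : E, v ≠ 0 ∧ ∃ C : ℝ, ∀ k : ℤ, ‖(e ^ k) v‖ ≤ C := by
  have hl : ∀ ℓ : E →ₗ[ℝ] ℝ, ∑ i, w i * ℓ (e (z i)) ^ 2 = ∑ i, w i * ℓ (z i) ^ 2 := by
    intro ℓ
    have h1 := h ((InnerProductSpace.toDual ℝ (E)).symm (LinearMap.toContinuousLinearMap ℓ))
    have h2 : ∀ u : E, ⟪u, (InnerProductSpace.toDual ℝ (E)).symm
        (LinearMap.toContinuousLinearMap ℓ)⟫_ℝ = ℓ u := by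
      intro u
      rw [real_inner_comm, InnerProductSpace.toDual_symm_apply]
      rfl
    simpa only [h2] using h1
  have hk : ∀ k : ℤ, ∀ x : E,
      ∑ i, w i * ⟪(e ^ k) (z i), x⟫_ℝ ^ 2 = ∑ i, w i * ⟪z i, x⟫_ℝ ^ 2 := by
    have step : ∀ k : ℤ, ∀ x : E, ∑ i, w i * ⟪(e ^ (k + 1)) (z i), x⟫_ℝ ^ 2 =
        ∑ i, w i * ⟪(e ^ k) (z i), x⟫_ℝ ^ 2 := by
      intro k x
      have h1 := hl (((innerSL ℝ x : E →L[ℝ] ℝ) : E →ₗ[ℝ] ℝ) ∘ₗ ((e ^ k : E ≃ₗ[ℝ] E) : E →ₗ[ℝ] E))
      have h2 : ∀ u : E, (((innerSL ℝ x : E →L[ℝ] ℝ) : E →ₗ[ℝ] ℝ) ∘ₗ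
          ((e ^ k : E ≃ₗ[ℝ] E) : E →ₗ[ℝ] E)) u = ⟪(e ^ k) u, x⟫_ℝ := by
        intro u
        rw [real_inner_comm]
        rfl
      simp only [h2] at h1
      have h3 : ∀ u : E, (e ^ (k + 1)) u = (e ^ k) (e u) := by
        intro u
        rw [zpow_add_one]
        rfl
      simp only [h3]
      exact h1
    intro k
    induction k using Int.induction_on with
    | zero => intro x; simp
    | succ m ih => intro x; rw [step, ih]
    | pred m ih =>
      intro x
      have := step (-(m : ℤ) - 1) x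
      rw [sub_add_cancel] at this
      rw [← this, ih]
  obtain ⟨j, -, hj⟩ := Finset.exists_ne_zero_of_sum_ne_zero (s := Finset.univ) (f := w)
    (by rw [hw1]; exact one_ne_zero)
  have hj' : 0 < w j := lt_of_le_of_ne (hw0 j) (Ne.symm hj)
  refine ⟨z j, ?_, 1 + 1 / w j, ?_⟩
  · intro h0
    have := hz j
    rw [h0, norm_zero] at this
    exact zero_ne_one this
  · intro k
    have h1 : w j * ‖(e ^ k) (z j)‖ ^ 4 ≤ ‖(e ^ k) (z j)‖ ^ 2 := by
      have h2 : w j * ⟪(e ^ k) (z j), (e ^ k) (z j)⟫_ℝ ^ 2 ≤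
          ∑ i, w i * ⟪(e ^ k) (z i), (e ^ k) (z j)⟫_ℝ ^ 2 :=
        Finset.single_le_sum (f := fun i => w i * ⟪(e ^ k) (z i), (e ^ k) (z j)⟫_ℝ ^ 2)
          (fun i _ => mul_nonneg (hw0 i) (sq_nonneg _)) (Finset.mem_univ j)
      rw [hk k] at h2
      have h3 : ∑ i, w i * ⟪z i, (e ^ k) (z j)⟫_ℝ ^ 2 ≤ ∑ i, w i * ‖(e ^ k) (z j)‖ ^ 2 := by
        refine Finset.sum_le_sum fun i _ => mul_le_mul_of_nonneg_left ?_ (hw0 i)
        have h4 := abs_real_inner_le_norm (z i) ((e ^ k) (z j))
        rw [hz i, one_mul] at h4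
        rw [← sq_abs]
        exact pow_le_pow_left₀ (abs_nonneg _) h4 2
      rw [← Finset.sum_mul, hw1, one_mul] at h3
      rw [real_inner_self_eq_norm_sq] at h2
      calc w j * ‖(e ^ k) (z j)‖ ^ 4 = w j * (‖(e ^ k) (z j)‖ ^ 2) ^ 2 := by ring
        _ ≤ _ := h2.trans h3
    by_contra hcon
    push Not at hcon
    have h5 : 0 < 1 / w j := by positivity
    set t := ‖(e ^ k) (z j)‖ with ht
    have ht1 : 1 < t := by linarith
    have h6 : w j * t ^ 2 ≤ 1 := by
      have h7 : 0 < t ^ 2 := by positivity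
      have h8 : (w j * t ^ 2) * t ^ 2 ≤ 1 * t ^ 2 := by
        calc (w j * t ^ 2) * t ^ 2 = w j * t ^ 4 := by ring
          _ ≤ t ^ 2 := h1
          _ = 1 * t ^ 2 := by ring
      exact le_of_mul_le_mul_right h8 h7
    have h9 : 1 < w j * t := by
      have := mul_lt_mul_of_pos_left hcon hj'
      rw [mul_add, mul_one_div, div_self hj] at this
      linarith
    nlinarith

theorem dual (A : E →L[ℝ] E) (hA : Function.Injective A)
    (hN : ∀ v : ℤ → E, (∃ C : ℝ, ∀ i, ‖v i‖ ≤ C) → (∀ i, v (i + 1) = A (v i)) → ∀ i, v i = 0) :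
    ∃ q : E →L[ℝ] E →L[ℝ] ℝ, ∀ v, v ≠ 0 → q v v < q (A v) (A v) := by
  have hS : IsCompact (sphere (0 : E) 1) := isCompact_sphere 0 1
  have hK : IsCompact ((fun v : E => rk (A v) (A v) - rk v v) '' sphere (0 : E) 1) :=
    hS.image (rk_cont A)
  have hH := compact_hull hK
  by_cases h0 : (0 : E →L[ℝ] E) ∈
      convexHull ℝ ((fun v : E => rk (A v) (A v) - rk v v) '' sphere (0 : E) 1)
  · exfalso
    obtain ⟨ι, hι, w, m, hw0, hw1, hm, hsum⟩ := mem_convexHull_iff_exists_fintype.1 h0
    choose z hz hzm using hm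
    let e : E ≃ₗ[ℝ] E := LinearEquiv.ofInjectiveEndo (A : E →ₗ[ℝ] E) hA
    have he : ∀ v, e v = A v := fun v => rfl
    have hz1 : ∀ i, ‖z i‖ = 1 := fun i => by simpa using hz i
    obtain ⟨v, hv, C, hC⟩ := orbit_bdd e ι w z hw0 hw1 hz1 (by
      intro x
      have h1 : ⟪(∑ i, w i • m i) x, x⟫_ℝ = 0 := by rw [hsum]; simp
      have h2 : ⟪(∑ i, w i • m i) x, x⟫_ℝ =
          ∑ i, w i * ⟪e (z i), x⟫_ℝ ^ 2 - ∑ i, w i * ⟪z i, x⟫_ℝ ^ 2 := by
        rw [← Finset.sum_sub_distrib]
        simp only [_root_.sum_apply, _root_.smul_apply, sum_inner]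
        refine Finset.sum_congr rfl fun i _ => ?_
        rw [← hzm i]
        simp only [_root_.sub_apply, rk_apply, he, real_inner_smul_left, inner_sub_left]
        ring
      rw [h2] at h1
      linarith)
    have h3 := hN (fun k => (e ^ k) v) ⟨C, hC⟩ (by
      intro k
      show (e ^ (k + 1)) v = A ((e ^ k) v)
      rw [add_comm, zpow_one_add]
      rfl) 0
    apply hv
    simpa using h3
  · obtain ⟨f, u, hfu, hf⟩ := geometric_hahn_banach_point_closed (convex_convexHull ℝ _)
      hH.isClosed h0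
    rw [map_zero] at hfu
    refine ⟨qf f, ?_⟩
    intro v hv
    rw [qf_apply, qf_apply]
    have hv' : 0 < ‖v‖ := norm_pos_iff.2 hv
    have h1 := hf _ (subset_convexHull ℝ _ (mem_image_of_mem _
      (show (‖v‖⁻¹ • v) ∈ sphere (0 : E) 1 by
        rw [mem_sphere_zero_iff_norm, norm_smul, norm_inv, norm_norm,
          inv_mul_cancel₀ hv'.ne'])))
    have h2 : rk (A (‖v‖⁻¹ • v)) (A (‖v‖⁻¹ • v)) - rk (‖v‖⁻¹ • v) (‖v‖⁻¹ • v) =
        (‖v‖⁻¹ * ‖v‖⁻¹) • (rk (A v) (A v) - rk v v) := by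
      simp only [map_smul, rk_smul_left, rk_smul_right, smul_sub, smul_smul]
    rw [h2, map_smul, smul_eq_mul, map_sub] at h1
    have h3 : 0 < ‖v‖⁻¹ * ‖v‖⁻¹ := by positivity
    have h4 : 0 < ‖v‖⁻¹ * ‖v‖⁻¹ * (f (rk (A v) (A v)) - f (rk v v)) := hfu.trans h1
    have h5 := (mul_pos_iff_of_pos_left h3).1 h4
    linarith

end

theorem main : S_QF := fun _ A hA hN => dual A hA hN

end Pool.Agent.H179.CB.QF
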